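import Pool.Agent.W868.GM.Vg

/-!
# The ground model of a generic extension of a model of ZF need not be definable

The definitions are in `Pool.Agent.W868.Defs` (`Fml`, `Sat`, `Fml.Over`, `IsZF`) and in
`Pool.Agent.W868.GM.Dfs` (`IsForcing`, `IsGeneric`, `ev`, `ext`).
-/

set_option autoImplicit false

namespace Pool.Agent.Results.MP_3ade05_lc.GroundNotDefinable

open Pool.Agent.W868 Pool.Agent.W868.GM

/-- There are a countable transitive model `V` of ZF, a notion of forcing `(ω, Le)` in `V`, and a
`V`-generic filter `G` such that the generic extension `V[G]` is a model of ZF that contains `V`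
and `G`, and there is no formula with parameters from `V[G]` that defines `V` in `(V[G], ∈)`. -/
theorem result : ∃ (V : Set ZFSet.{0}) (Le G : ZFSet.{0}), V.Countable ∧ IsZF V ∧
    IsForcing V ZFSet.omega Le ∧ IsGeneric V ZFSet.omega Le G ∧ IsZF (ext V G) ∧
    V ⊆ ext V G ∧ G ∈ ext V G ∧
    ¬ ∃ φ : Fml ZFSet.{0} 1, φ.Over (ext V G) ∧
      ∀ x ∈ ext V G, (Sat (ext V G) id φ ![x] ↔ x ∈ V) :=
  main

end Pool.Agent.Results.MP_3ade05_lc.GroundNotDefinable
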